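import Pool.Agent.Zk41.PY.C
import Pool.Agent.Zk41.PY.D
import Pool.Agent.TH423.SH.PRDP
import Pool.Agent.H325R2.PPPnt
import Pool.Agent.K3h89.SZ.Base
import Pool.Agent.K3h89.SZ.VUP

/-!
Zk41/PY (helper41): primes at which a polynomial has no small prime factors: lower bound, uniform in the polynomial.
-/

set_option autoImplicit false

open Finset Filter Topology Polynomial

namespace Pool.Agent.Zk41.PY

open Pool.Agent.TH423.SH (PS PIj)
open Pool.Agent.Y677.RSZ (rt V rt_le fac_nonneg fac_le)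
open Pool.Agent.K3h89.SZ (SysP V_lowerP V_posP pigP)

lemma fnX (Q : ℤ[X]) (x : ℤ) : fn (X * Q) x = x * fn Q x := by
  unfold fn
  rw [eval_mul, eval_X]

/-- the nonzero roots -/
def OmQ (Q : ℤ[X]) (p : ℕ) : Finset ℕ := by
  classical
  exact (range p).filter (fun r : ℕ => r ≠ 0 ∧ (p : ℤ) ∣ fn Q (r : ℤ))

lemma mem_OmQ (Q : ℤ[X]) (p r : ℕ) : r ∈ OmQ Q p ↔ r < p ∧ r ≠ 0 ∧ (p : ℤ) ∣ fn Q (r : ℤ) := by
  classical
  unfold OmQ
  rw [mem_filter, mem_range]

lemma rt_OmQ (Q : ℤ[X]) {p : ℕ} (hp : p.Prime) : rt (fn (X * Q)) p = (OmQ Q p).card + 1 := by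
  classical
  have h0 : (0 : ℕ) ∉ OmQ Q p := by
    rw [mem_OmQ]
    rintro ⟨-, h, -⟩
    exact h rfl
  rw [← card_insert_of_notMem h0]
  unfold rt
  congr 1
  ext r
  rw [mem_filter, mem_range, mem_insert, mem_OmQ, fnX]
  have hpp : Prime (p : ℤ) := Nat.prime_iff_prime_int.1 hp
  constructor
  · rintro ⟨h1, h2⟩
    by_cases hr : r = 0
    · exact Or.inl hr
    · right
      refine ⟨h1, hr, ?_⟩
      rcases hpp.dvd_or_dvd h2 with h3 | h3
      · exfalso
        have h4 : p ∣ r := by exact_mod_cast h3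
        exact absurd (Nat.le_of_dvd (Nat.pos_of_ne_zero hr) h4) (by omega)
      · exact h3
  · rintro (rfl | ⟨h1, -, h3⟩)
    · exact ⟨hp.pos, by simp⟩
    · exact ⟨h1, h3.mul_left _⟩

/-- the number of primes in `(H, 2 H]` -/
lemma pi_low : ∃ H₀ : ℕ, ∀ H : ℕ, H₀ ≤ H →
    (H : ℝ) / (2 * Real.log H) ≤ (((Ioc H (H + H)).filter Nat.Prime).card : ℝ) := by
  obtain ⟨x3, h3⟩ := Pool.Agent.H325R2.pnt (1 / 4) (by norm_num)
  have hcast : Tendsto (fun H : ℕ => (H : ℝ)) atTop atTop := tendsto_natCast_atTop_atTop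
  have h1 : ∀ᶠ x : ℝ in atTop, ‖Real.log x‖ ≤ (1 / 4 : ℝ) * ‖id x‖ :=
    Real.isLittleO_log_id_atTop.def (by norm_num)
  obtain ⟨x4, h4⟩ := eventually_atTop.1 (hcast.eventually h1)
  refine ⟨x3 + x4 + 3, fun H hH => ?_⟩
  have hPr := (abs_le.1 (h3 H (by omega))).1
  have hl := h4 H (by omega)
  have hHr : (3 : ℝ) ≤ H := by exact_mod_cast (by omega : 3 ≤ H)
  have hL0 : 0 < Real.log H := Real.log_pos (by linarith)
  rw [Real.norm_of_nonneg hL0.le, id, Real.norm_of_nonneg (by linarith)] at hl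
  have hsub : (Ico H (2 * H)).filter Nat.Prime ⊆ insert H ((Ioc H (H + H)).filter Nat.Prime) := by
    intro p hp
    rw [mem_filter, mem_Ico] at hp
    rw [mem_insert, mem_filter, mem_Ioc]
    by_cases h : p = H
    · exact Or.inl h
    · exact Or.inr ⟨⟨by omega, by omega⟩, hp.2⟩
  have hc := (card_le_card hsub).trans (card_insert_le _ _)
  have hc' : Pool.Agent.H361R2.PP.Pr H ≤ (((Ioc H (H + H)).filter Nat.Prime).card : ℝ) + 1 := by
    unfold Pool.Agent.H361R2.PP.Pr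
    exact_mod_cast hc
  rw [div_le_iff₀ (by positivity)]
  nlinarith

set_option maxHeartbeats 1600000 in
/-- **Primes at which a polynomial has no small prime factors.** -/
theorem lowPr (g : ℕ) : ∃ δ c : ℝ, 0 < δ ∧ δ ≤ 1 ∧ 0 < c ∧ ∃ H₀ : ℕ, ∀ (Q : ℤ[X]) (H : ℕ), AdmP (X * Q) →
    Q.natDegree ≤ g → H₀ ≤ H → ∃ A ⊆ Ioc H (H + H), (∀ n ∈ A, n.Prime) ∧
    (∀ n ∈ A, ∀ p : ℕ, p.Prime → (p : ℝ) ≤ (H : ℝ) ^ δ → ¬ (p : ℤ) ∣ fn (X * Q) (n : ℤ)) ∧
    c * (H * V (fn (X * Q)) 1 H) ≤ A.card := by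
  classical
  obtain ⟨C, hC1, hC⟩ := psl Pool.Agent.TH423.SH.fll
  obtain ⟨b₀, hb₀⟩ : ∃ b₀ : ℕ, b₀ = C * (g + 1) := ⟨_, rfl⟩
  have hb₀1 : 1 ≤ b₀ := by rw [hb₀]; exact Nat.mul_pos hC1 (by omega)
  obtain ⟨E, hE⟩ : ∃ E : ℕ, E = C * b₀ := ⟨_, rfl⟩
  have hE1 : 1 ≤ E := by rw [hE]; exact Nat.mul_pos hC1 hb₀1
  obtain ⟨W, hW⟩ : ∃ W : ℕ, W = primorial (C * (g + 1) + (2 * (g + 1) + 2)) := ⟨_, rfl⟩
  have hWpos : 0 < W := by rw [hW]; exact primorial_pos _
  have hW0 : (0 : ℝ) < W := by exact_mod_cast hWpos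
  have hWp : ∀ p : ℕ, p.Prime → p ≤ C * (g + 1) + (2 * (g + 1) + 2) → p ∣ W := fun p hp hpS => by
    rw [hW]; exact hp.dvd_primorial_iff.2 hpS
  have hWsq : Squarefree W := by
    rw [hW]
    unfold primorial
    exact Finset.squarefree_prod_of_pairwise_isCoprime (by
      intro a ha b hb hab
      rw [mem_coe, mem_filter] at ha hb
      exact Nat.coprime_iff_isRelPrime.1 ((Nat.coprime_primes ha.2 hb.2).2 hab)) (by
      intro p hp
      rw [mem_filter] at hp
      exact hp.2.prime.squarefree)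
  obtain ⟨KV, hKV1, hKV⟩ := V_lowerP
  obtain ⟨B, hB⟩ : ∃ B : ℕ, B = 2 * (g + 1) + 1 := ⟨_, rfl⟩
  obtain ⟨X₀, hX₀⟩ := hC g b₀ W B hb₀.ge hWpos (fun p hp hpS => hWp p hp (by omega))
  obtain ⟨H₁, hπ⟩ := pi_low
  have hE0 : (0 : ℝ) < E := by exact_mod_cast hE1
  have hKV0 : 0 < KV := by linarith
  -- the numerical conditions
  have hlog : Tendsto (fun H : ℕ => Real.log (H : ℝ)) atTop atTop :=
    Real.tendsto_log_atTop.comp tendsto_natCast_atTop_atTop
  obtain ⟨H₂, hH₂⟩ := eventually_atTop.1 (hlog.eventually_ge_atTop (2 * KV ^ (2 * (g + 1)) * (64 * E * W)))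
  obtain ⟨N₂, hN₂⟩ : ∃ N₂ : ℕ, N₂ = 2 ^ (4 * E) := ⟨_, rfl⟩
  refine ⟨1 / (8 * E), 1 / (64 * E * W), by positivity, ?_, by positivity, H₁ + H₂ + X₀ + N₂ + 2, ?_⟩
  · rw [div_le_one (by positivity)]
    have : (1 : ℝ) ≤ E := by exact_mod_cast hE1
    linarith
  intro Q H hA hQg hH
  have n1 : 2 ≤ H := by omega
  have n2 : 2 ^ (4 * E) ≤ H := by rw [← hN₂]; omega
  have n3 := hH₂ H (by omega)
  have n4 := hπ H (by omega)
  have hH0 : (0 : ℝ) < H := by exact_mod_cast (show 0 < H by omega)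
  have hlogpos : 0 < Real.log H := Real.log_pos (by exact_mod_cast (show 1 < H by omega))
  obtain ⟨J, hJ1, hJ2⟩ := Pool.Agent.K3h89.SZ.VUP.exJ E H hE1 n2
  have hdeg : (X * Q).natDegree ≤ g + 1 := by
    refine natDegree_mul_le.trans ?_
    have : (X : ℤ[X]).natDegree ≤ 1 := natDegree_X_le
    omega
  have hF : SysP (g + 1) (fn (X * Q)) := sysP_poly (g + 1) (X * Q) hA hdeg
  obtain ⟨F, hFd⟩ : ∃ F : ℤ → ℤ, F = fn (X * Q) := ⟨_, rfl⟩
  rw [← hFd] at hF ⊢
  -- an admissible class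
  obtain ⟨b, hbW, hb⟩ : ∃ b < W, ∀ p ∈ W.primeFactors, ¬ (p : ℤ) ∣ F b := by
    have h1 := pigP F hF.per W hWsq
    have h2 : 0 < ∏ p ∈ W.primeFactors, (p - rt F p) := by
      apply prod_pos
      intro p hp
      have := (hF.root p (Nat.prime_of_mem_primeFactors hp)).2
      omega
    rw [← h1, card_pos] at h2
    obtain ⟨b, hb⟩ := h2
    rw [mem_filter, mem_range] at hb
    exact ⟨b, hb.1, hb.2⟩
  have hbc : b.Coprime W := by
    rw [Nat.Coprime, Nat.gcd_comm]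
    by_contra hcon
    obtain ⟨p, hp, hpd⟩ := Nat.exists_prime_and_dvd hcon
    apply hb p (Nat.mem_primeFactors.2 ⟨hp, hpd.trans (Nat.gcd_dvd_left _ _), hWpos.ne'⟩)
    rw [hFd, fnX]
    exact (Int.natCast_dvd_natCast.2 (hpd.trans (Nat.gcd_dvd_right _ _))).mul_right _
  set z : ℕ := 2 ^ 2 ^ J with hz
  have hz2 : 2 ≤ z := by
    rw [hz]
    calc 2 = 2 ^ 1 := by norm_num
      _ ≤ 2 ^ 2 ^ J := Nat.pow_le_pow_right (by norm_num) Nat.one_le_two_pow
  have hzH : (H : ℝ) ^ (1 / (8 * (E : ℝ))) < z := by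
    have h1 : (H : ℝ) < (z : ℝ) ^ (8 * E) := by exact_mod_cast hJ2
    calc (H : ℝ) ^ (1 / (8 * (E : ℝ))) < ((z : ℝ) ^ (8 * E)) ^ (1 / (8 * (E : ℝ))) :=
          Real.rpow_lt_rpow hH0.le h1 (by positivity)
      _ = z := by
          rw [← Real.rpow_natCast, ← Real.rpow_mul (Nat.cast_nonneg _)]
          push_cast
          rw [mul_one_div_cancel (by positivity), Real.rpow_one]
  have hzle : z ≤ H := by
    have h1 : z ≤ z ^ (4 * E) := Nat.le_self_pow (by omega) _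
    exact h1.trans hJ1
  have hlz : Real.log H / (8 * E) ≤ Real.log z := by
    have h1 : (H : ℝ) ≤ (z : ℝ) ^ (8 * E) := by exact_mod_cast hJ2.le
    have h2 := Real.log_le_log hH0 h1
    rw [Real.log_pow] at h2
    push_cast at h2
    rw [div_le_iff₀ (by positivity)]
    linarith
  have hPS : ∀ p ∈ PS W z, p.Prime ∧ ¬ p ∣ W ∧ p ≤ z := by
    intro p hp
    unfold PS at hp
    rw [mem_filter, mem_Icc] at hp
    exact ⟨hp.2.1, hp.2.2, hp.1.2⟩
  have hrt : ∀ p : ℕ, p.Prime → rt F p = (OmQ Q p).card + 1 := fun p hp => by rw [hFd]; exact rt_OmQ Q hp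
  have key := hX₀ H (H + H) J b (by omega) (by omega) (by
      rw [← pow_mul]
      have h7 : (2 ^ 2 ^ J) ^ (C * b₀ * 3) ≤ (2 ^ 2 ^ J) ^ (4 * E) := by
        apply Nat.pow_le_pow_right (by positivity)
        rw [hE]
        omega
      exact (h7.trans hJ1).trans (Nat.le_add_right _ _)) hbc (OmQ Q) (by
      intro p hp
      obtain ⟨h1, h2, h3⟩ := hPS p hp
      have h4 := (hF.root p h1).1
      rw [hrt p h1] at h4
      refine ⟨by omega, ?_, ?_⟩
      · rw [mem_OmQ]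
        rintro ⟨-, h, -⟩
        exact h rfl
      · intro c hc
        rw [mem_OmQ] at hc
        exact hc.1)
  obtain ⟨A, hAd⟩ : ∃ A : Finset ℕ, A = (Ioc H (H + H)).filter (fun q => q.Prime ∧ q % W = b % W ∧
      ∀ p ∈ PS W z, q % p ∉ OmQ Q p) := ⟨_, rfl⟩
  have key' : (1 - (1 / 2 : ℝ) ^ b₀) * ((((Ioc H (H + H)).filter Nat.Prime).card : ℝ) / Nat.totient W) *
        ∏ p ∈ PS W z, (1 - ((OmQ Q p).card : ℝ) / ((p : ℝ) - 1)) - ((H + H : ℕ) : ℝ) / Real.log ((H + H : ℕ) : ℝ) ^ B ≤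
      (A.card : ℝ) := by
    rw [hAd]
    convert key using 4
  -- the product
  obtain ⟨Pr, hPr⟩ : ∃ Pr : ℝ, Pr = ∏ p ∈ PS W z, (1 - ((OmQ Q p).card : ℝ) / ((p : ℝ) - 1)) := ⟨_, rfl⟩
  have hVP : V F W z = PIj W z 1 * Pr := by
    rw [hPr]
    unfold V PIj
    rw [← prod_mul_distrib]
    apply prod_congr rfl
    intro p hp
    have hp2 : (2 : ℝ) ≤ p := by exact_mod_cast (hPS p hp).1.two_le
    rw [hrt p (hPS p hp).1]
    push_cast
    have e1 : (p : ℝ) ≠ 0 := by linarith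
    have e2 : (p : ℝ) - 1 ≠ 0 := by linarith
    field_simp
    ring
  have hPr0 : 0 ≤ Pr := by
    rw [hPr]
    apply prod_nonneg
    intro p hp
    have hp2 : (2 : ℝ) ≤ p := by exact_mod_cast (hPS p hp).1.two_le
    have h4 := (hF.root p (hPS p hp).1).2
    rw [hrt p (hPS p hp).1] at h4
    have h5 : ((OmQ Q p).card : ℝ) + 1 ≤ p := by exact_mod_cast h4.le
    rw [sub_nonneg, div_le_one (by linarith)]
    linarith
  have hφ0 : (0 : ℝ) < Nat.totient W := by exact_mod_cast Nat.totient_pos.2 hWpos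
  have hlz0 : 0 < Real.log z := Real.log_pos (by exact_mod_cast (show 1 < z by omega))
  have hVz0 : 0 < V F W z := V_posP hF W z
  have hPR : V F W z * Real.log z / W ≤ Pr / Nat.totient W := by
    have h1 := Pool.Agent.TH423.SH.prb W z hWpos hz2
    rw [div_le_div_iff₀ hW0 hφ0, hVP]
    calc PIj W z 1 * Pr * Real.log z * Nat.totient W = (PIj W z 1 * Real.log z * Nat.totient W) * Pr := by ring
      _ ≤ W * Pr := mul_le_mul_of_nonneg_right h1 hPr0
      _ = Pr * W := mul_comm _ _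
  have hVzH : V F W H ≤ V F W z := by
    unfold V
    have hsub : PS W z ⊆ PS W H := by
      intro p hp
      unfold PS at hp ⊢
      rw [mem_filter, mem_Icc] at hp ⊢
      exact ⟨⟨hp.1.1, hp.1.2.trans hzle⟩, hp.2⟩
    rw [← prod_sdiff hsub]
    exact mul_le_of_le_one_left (prod_nonneg fun p _ => fac_nonneg p)
      (prod_le_one (fun p _ => fac_nonneg p) (fun p _ => fac_le p))
  have hV1 : V F 1 H ≤ V F W H := by
    unfold V
    have hsub : PS W H ⊆ PS 1 H := by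
      intro p hp
      unfold PS at hp ⊢
      rw [mem_filter] at hp ⊢
      exact ⟨hp.1, hp.2.1, by rw [Nat.dvd_one]; exact hp.2.1.ne_one⟩
    rw [← prod_sdiff hsub]
    exact mul_le_of_le_one_left (prod_nonneg fun p _ => fac_nonneg p)
      (prod_le_one (fun p _ => fac_nonneg p) (fun p _ => fac_le p))
  have hVlow := hKV (g + 1) F W H hF n1 (fun p hp hpg => hWp p hp (by omega))
  have hhalf : (1 / 2 : ℝ) ^ b₀ ≤ 1 / 2 := by
    calc (1 / 2 : ℝ) ^ b₀ ≤ (1 / 2 : ℝ) ^ 1 := pow_le_pow_of_le_one (by norm_num) (by norm_num) hb₀1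
      _ = 1 / 2 := by norm_num
  -- the main term
  have hmain : 2 * (1 / (64 * E * W) * (H * V F W H)) ≤
      (1 - (1 / 2 : ℝ) ^ b₀) * ((((Ioc H (H + H)).filter Nat.Prime).card : ℝ) / Nat.totient W) * Pr := by
    calc 2 * (1 / (64 * E * W) * (H * V F W H)) ≤ 2 * (1 / (64 * E * W) * (H * V F W z)) := by gcongr
      _ = (1 / 2) * ((H / (2 * Real.log H)) * (V F W z * (Real.log H / (8 * E)) / W)) := by
          field_simp
          ring
      _ ≤ (1 / 2) * ((H / (2 * Real.log H)) * (V F W z * Real.log z / W)) := by gcongr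
      _ ≤ (1 - (1 / 2 : ℝ) ^ b₀) * ((((Ioc H (H + H)).filter Nat.Prime).card : ℝ) * (Pr / Nat.totient W)) := by
          apply mul_le_mul
          · linarith
          · exact mul_le_mul n4 hPR (by positivity) (Nat.cast_nonneg _)
          · positivity
          · linarith
      _ = _ := by ring
  -- the error term
  have herr : ((H + H : ℕ) : ℝ) / Real.log ((H + H : ℕ) : ℝ) ^ B ≤ 1 / (64 * E * W) * (H * V F W H) := by
    have h1 : Real.log H ≤ Real.log ((H + H : ℕ) : ℝ) := Real.log_le_log hH0 (by push_cast; linarith)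
    have h2 : ((H + H : ℕ) : ℝ) / Real.log ((H + H : ℕ) : ℝ) ^ B ≤ (2 * H) / Real.log H ^ B := by
      push_cast
      have h3 : Real.log H ^ B ≤ Real.log ((H : ℝ) + H) ^ B := by
        have : Real.log H ≤ Real.log ((H : ℝ) + H) := by simpa using h1
        exact pow_le_pow_left₀ hlogpos.le this B
      calc ((H : ℝ) + H) / Real.log ((H : ℝ) + H) ^ B ≤ ((H : ℝ) + H) / Real.log H ^ B :=
            div_le_div_of_nonneg_left (by positivity) (by positivity) h3
        _ = _ := by ring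
    refine h2.trans ?_
    calc (2 * (H : ℝ)) / Real.log H ^ B ≤ 1 / (64 * E * W) * (H * (1 / (KV * Real.log H) ^ (2 * (g + 1)))) := by
          rw [hB, div_le_iff₀ (by positivity)]
          have e1 : 1 / (64 * E * W) * (H * (1 / (KV * Real.log H) ^ (2 * (g + 1)))) * Real.log H ^ (2 * (g + 1) + 1) =
              H * (Real.log H / (64 * E * W * KV ^ (2 * (g + 1)))) := by
            rw [mul_pow, pow_succ]
            field_simp
          rw [e1]
          have e2 : 2 ≤ Real.log H / (64 * E * W * KV ^ (2 * (g + 1))) := by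
            rw [le_div_iff₀ (by positivity)]
            calc 2 * (64 * E * W * KV ^ (2 * (g + 1))) = 2 * KV ^ (2 * (g + 1)) * (64 * E * W) := by ring
              _ ≤ _ := n3
          nlinarith
      _ ≤ _ := by gcongr
  refine ⟨A, ?_, ?_, ?_, ?_⟩
  · rw [hAd]
    exact filter_subset _ _
  · intro n hn
    rw [hAd, mem_filter] at hn
    exact hn.2.1
  · intro n hn p hp hpH hpd
    rw [hAd, mem_filter, mem_Ioc] at hn
    obtain ⟨⟨hn1, hn2⟩, hnp, hnW, hnO⟩ := hn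
    have hpz : p < z := by
      have : (p : ℝ) < z := hpH.trans_lt hzH
      exact_mod_cast this
    have hpn : ¬ (p : ℤ) ∣ (n : ℤ) := by
      intro h1
      have h2 : p ∣ n := by exact_mod_cast h1
      have h3 := (Nat.prime_dvd_prime_iff_eq hp hnp).1 h2
      omega
    have hpp : Prime (p : ℤ) := Nat.prime_iff_prime_int.1 hp
    by_cases hpW : p ∣ W
    · apply hb p (Nat.mem_primeFactors.2 ⟨hp, hpW, hWpos.ne'⟩)
      rw [hFd] at hpd ⊢
      unfold fn at hpd ⊢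
      refine (dvd_iff (X * Q) p (n : ℤ) (b : ℤ) ?_).2 hpd
      have h1 : b ≡ n [MOD p] := by
        have h2 : b ≡ n [MOD W] := hnW.symm
        exact h2.of_dvd hpW
      have h3 := (Nat.modEq_iff_dvd.1 h1)
      have h4 : (b : ℤ) - n = -((n : ℤ) - b) := by ring
      rw [h4]
      exact h3.neg_right
    · have h1 := hnO p (by
        unfold PS
        rw [mem_filter, mem_Icc]
        exact ⟨⟨hp.one_lt.le, hpz.le⟩, hp, hpW⟩)
      apply h1
      rw [mem_OmQ]
      refine ⟨Nat.mod_lt _ hp.pos, ?_, ?_⟩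
      · intro h2
        exact hpn (by exact_mod_cast Nat.dvd_of_mod_eq_zero h2)
      · rw [hFd, fnX] at hpd
        rcases hpp.dvd_or_dvd hpd with h2 | h2
        · exact absurd h2 hpn
        · unfold fn at h2 ⊢
          refine (dvd_iff Q p (n : ℤ) ((n % p : ℕ) : ℤ) ?_).2 h2
          have h3 : ((n % p : ℕ) : ℤ) - n = -((n : ℤ) - ((n % p : ℕ) : ℤ)) := by ring
          rw [h3, Int.natCast_mod]
          exact (Int.dvd_self_sub_emod).neg_right
  · have h1 : 1 / (64 * E * W) * (H * V F 1 H) ≤ 1 / (64 * E * W) * (H * V F W H) := by gcongr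
    rw [← hPr] at key'
    linarith

end Pool.Agent.Zk41.PY
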