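import Pool.Agent.Zk41.PY.B
import Pool.Agent.Zk41.LS.G

/-!
Zk41/PY (helper41): Szemerédi's theorem relative to the integers at which a polynomial has no small prime factors,
for progressions with a small difference, uniformly in the coefficients.
-/

set_option autoImplicit false

open Finset Filter Topology Polynomial

namespace Pool.Agent.Zk41.PY

open Pool.Agent.TH423.SH (PS)
open Pool.Agent.Y677.RSZ (rt V ev_log)
open Pool.Agent.K3h89.SZ (SysP CF strip stripP lar_cnt)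
open Pool.Agent.Zk41.LS (sum_biU eng2_all V_low1 omega_le)

open Classical in
/-- the large common prime factors -/
theorem larP (g C B : ℕ) (η : ℝ) (hη : 0 < η) : ∃ H₀ : ℕ, ∀ H : ℕ, H₀ ≤ H → ∀ P : ℤ[X], P.natDegree ≤ g →
    (∀ i, |P.coeff i| ≤ (H : ℤ) ^ C) →
    ∑ p ∈ (Icc 1 H).filter (fun p : ℕ => p.Prime ∧ Real.exp (√(Real.log H)) ≤ p ∧
      ∃ h : ℕ, 1 ≤ h ∧ (h : ℝ) ≤ Real.log H ^ B ∧ RR P h ≠ 0 ∧ (p : ℤ) ∣ RR P h), (1 : ℝ) / p ≤ η := by
  obtain ⟨D, H₉, hD⟩ := RR_le g C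
  have hcast : Tendsto (fun H : ℕ => (H : ℝ)) atTop atTop := tendsto_natCast_atTop_atTop
  have hlog : Tendsto (fun H : ℕ => Real.log (H : ℝ)) atTop atTop :=
    Real.tendsto_log_atTop.comp hcast
  have hsq : Tendsto (fun H : ℕ => √(Real.log (H : ℝ))) atTop atTop :=
    Real.tendsto_sqrt_atTop.comp hlog
  have e1 : ∀ᶠ H : ℕ in atTop, 2 * Real.log H ^ B < H := by
    have h1 : ∀ᶠ x : ℝ in atTop, ‖Real.log x ^ B‖ ≤ (1 / 4 : ℝ) * ‖id x‖ :=
      (Real.isLittleO_pow_log_id_atTop (n := B)).def (by positivity)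
    filter_upwards [hcast.eventually h1, hcast.eventually (eventually_gt_atTop 0)] with H h2 h3
    have h3' : (0 : ℝ) < H := h3
    rw [id, Real.norm_of_nonneg h3'.le] at h2
    have h4 : Real.log (H : ℝ) ^ B ≤ 1 / 4 * H := le_trans (Real.le_norm_self _) h2
    linarith
  obtain ⟨κ, hκ⟩ : ∃ κ : ℝ, κ = (D : ℝ) + 1 := ⟨_, rfl⟩
  have hκ0 : 0 < κ := by rw [hκ]; positivity
  have e2 : ∀ᶠ H : ℕ in atTop,
      √(Real.log (H : ℝ)) ^ (2 * B + 1) * Real.exp (-√(Real.log (H : ℝ))) < η / κ := by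
    have h1 := (Real.tendsto_pow_mul_exp_neg_atTop_nhds_zero (2 * B + 1)).comp hsq
    exact h1.eventually (gt_mem_nhds (by positivity))
  have e3 : ∀ᶠ H : ℕ in atTop, (4 : ℝ) ≤ Real.log (H : ℝ) := hlog.eventually_ge_atTop 4
  obtain ⟨H₀, hH₀⟩ := eventually_atTop.1 (e1.and (e2.and (e3.and (eventually_ge_atTop (20 + H₉)))))
  refine ⟨H₀, fun H hH P hP hc => ?_⟩
  obtain ⟨f1, f2, f3, f4⟩ := hH₀ H hH
  set L : ℝ := Real.log (H : ℝ) with hL
  have hL0 : 0 ≤ L := by linarith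
  set E : ℝ := Real.exp (√L) with hE
  have hu : 0 < √L := Real.sqrt_pos.2 (by linarith)
  have hE0 : 0 < E := Real.exp_pos _
  set I : Finset ℕ := Icc 1 ⌊L ^ B⌋₊ with hI
  set T : ℕ → Finset ℕ := fun q => (Icc 1 H).filter (fun p : ℕ => p.Prime ∧ E ≤ p ∧
    RR P (q : ℤ) ≠ 0 ∧ (p : ℤ) ∣ RR P (q : ℤ)) with hT
  -- the size of `T q`
  have hcard : ∀ q ∈ I, ((T q).card : ℝ) ≤ κ * √L := by
    intro q hq
    rw [hI, Finset.mem_Icc] at hq
    have hhL : (q : ℝ) ≤ L ^ B := (Nat.le_floor_iff (by positivity)).1 hq.2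
    have hqH : q ≤ H := by
      have h1 : 0 ≤ L ^ B := by positivity
      have : (q : ℝ) ≤ H := by linarith
      exact_mod_cast this
    by_cases h0 : RR P (q : ℤ) = 0
    · have : T q = ∅ := by
        rw [hT]
        simp only
        rw [filter_eq_empty_iff]
        intro p _ hp
        exact hp.2.2.1 h0
      rw [this]
      simp
      positivity
    · have g2 : |((RR P (q : ℤ) : ℤ) : ℝ)| ≤ (H : ℝ) ^ D := by
        have := hD H (by omega) P hP hc q hq.1 hqH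
        rw [← Int.cast_abs]
        exact_mod_cast this
      have g3 := lar_cnt h0 hE0.le g2 (T q) fun p hp => by
        have := (Finset.mem_filter.1 hp).2
        exact ⟨this.1, this.2.1, this.2.2.2⟩
      have g4 := Real.log_le_log (pow_pos hE0 _) g3
      rw [Real.log_pow, Real.log_pow, hE, Real.log_exp, ← hL] at g4
      have g5 : L = √L * √L := (Real.mul_self_sqrt hL0).symm
      have g6 : ((T q).card : ℝ) * √L ≤ (κ * √L) * √L := by
        rw [mul_assoc, ← g5, hκ]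
        linarith
      exact le_of_mul_le_mul_right g6 hu
  have h1 := sum_biU I T ((Icc 1 H).filter (fun p : ℕ => p.Prime ∧ Real.exp (√(Real.log H)) ≤ p ∧
      ∃ h : ℕ, 1 ≤ h ∧ (h : ℝ) ≤ Real.log H ^ B ∧ RR P h ≠ 0 ∧ (p : ℤ) ∣ RR P h)) (by
    intro p hp
    obtain ⟨hp1, hp2, hp3, h, hh1, hh2, h3, h4⟩ := Finset.mem_filter.1 hp
    refine ⟨h, ?_, Finset.mem_filter.2 ⟨hp1, hp2, hp3, h3, h4⟩⟩
    rw [hI]
    exact Finset.mem_Icc.2 ⟨hh1, Nat.le_floor hh2⟩)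
  have hin : ∀ q ∈ I, ∑ p ∈ T q, (1 : ℝ) / p ≤ κ * √L * Real.exp (-√L) := by
    intro q hq
    have h1 : ∀ p ∈ T q, (1 : ℝ) / p ≤ Real.exp (-√L) := by
      intro p hp
      obtain ⟨-, -, h2, -⟩ := Finset.mem_filter.1 hp
      rw [Real.exp_neg, ← hE, one_div]
      exact inv_anti₀ hE0 h2
    calc ∑ p ∈ T q, (1 : ℝ) / p ≤ ∑ _p ∈ T q, Real.exp (-√L) := Finset.sum_le_sum h1
      _ = (T q).card * Real.exp (-√L) := by rw [Finset.sum_const, nsmul_eq_mul]
      _ ≤ κ * √L * Real.exp (-√L) :=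
        mul_le_mul_of_nonneg_right (hcard q hq) (Real.exp_pos _).le
  calc _ ≤ ∑ q ∈ I, ∑ p ∈ T q, (1 : ℝ) / p := h1
    _ ≤ ∑ _q ∈ I, κ * √L * Real.exp (-√L) := Finset.sum_le_sum hin
    _ = (⌊L ^ B⌋₊ : ℝ) * (κ * √L * Real.exp (-√L)) := by
        rw [Finset.sum_const, nsmul_eq_mul, hI, Nat.card_Icc, Nat.add_sub_cancel]
    _ ≤ L ^ B * (κ * √L * Real.exp (-√L)) := by
        apply mul_le_mul_of_nonneg_right _ (by positivity)
        exact Nat.floor_le (by positivity)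
    _ = κ * (√L ^ (2 * B + 1) * Real.exp (-√L)) := by
        have h1 : √L ^ (2 * B + 1) = L ^ B * √L := by
          rw [pow_succ, pow_mul, Real.sq_sqrt hL0]
        rw [h1]
        ring
    _ ≤ η := by
        rw [lt_div_iff₀ hκ0] at f2
        linarith

/-- the size of the values -/
theorem fn_le (g C H Y : ℕ) (hH : g + 2 ≤ H) (P : ℤ[X]) (hg : P.natDegree ≤ g)
    (hc : ∀ i, |P.coeff i| ≤ (H : ℤ) ^ C) (hY : Y ≤ H ^ C)
    (n : ℕ) (hn : n ≤ Y + H) : |fn P n| ≤ (H : ℤ) ^ (C + (C + 2) * g + 1) := by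
  unfold fn
  rw [eval_eq_sum_range' (n := g + 1) (Nat.lt_succ_of_le hg)]
  refine (abs_sum_le_sum_abs _ _).trans ?_
  have hH1 : (1 : ℤ) ≤ H := by exact_mod_cast (by omega : 1 ≤ H)
  have hH2 : (2 : ℤ) ≤ H := by exact_mod_cast (by omega : 2 ≤ H)
  have hn' : (n : ℤ) ≤ (H : ℤ) ^ (C + 2) := by
    have h1 : (n : ℤ) ≤ Y + H := by exact_mod_cast hn
    have h2 : (Y : ℤ) ≤ (H : ℤ) ^ C := by exact_mod_cast hY
    have h3 : (1 : ℤ) ≤ (H : ℤ) ^ C := one_le_pow₀ hH1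
    have e : (H : ℤ) ^ (C + 2) = (H : ℤ) ^ C * (H * H) := by ring
    rw [e]
    nlinarith [mul_le_mul_of_nonneg_left (show (1 : ℤ) + H ≤ H * H by nlinarith) (show (0 : ℤ) ≤ (H : ℤ) ^ C by positivity)]
  calc ∑ i ∈ range (g + 1), |P.coeff i * (n : ℤ) ^ i| ≤ ∑ _i ∈ range (g + 1), (H : ℤ) ^ C * (H : ℤ) ^ ((C + 2) * g) := by
        apply sum_le_sum
        intro i hi
        rw [mem_range] at hi
        rw [abs_mul]
        apply mul_le_mul (hc i) _ (abs_nonneg _) (by positivity)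
        rw [abs_of_nonneg (by positivity)]
        calc (n : ℤ) ^ i ≤ ((H : ℤ) ^ (C + 2)) ^ i := pow_le_pow_left₀ (by positivity) hn' i
          _ = (H : ℤ) ^ ((C + 2) * i) := by rw [← pow_mul]
          _ ≤ (H : ℤ) ^ ((C + 2) * g) := pow_le_pow_right₀ hH1 (Nat.mul_le_mul_left _ (by omega))
    _ = ((g : ℤ) + 1) * ((H : ℤ) ^ C * (H : ℤ) ^ ((C + 2) * g)) := by
        rw [sum_const, card_range, nsmul_eq_mul]
        push_cast
        ring
    _ ≤ H * ((H : ℤ) ^ C * (H : ℤ) ^ ((C + 2) * g)) := by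
        apply mul_le_mul_of_nonneg_right _ (by positivity)
        exact_mod_cast (by omega : g + 1 ≤ H)
    _ = _ := by ring

set_option maxHeartbeats 1600000 in
/-- **The theorem for values without small prime factors.** -/
theorem pol (g k C : ℕ) (δ κ : ℝ) (hδ : 0 < δ) (hκ : 0 < κ) : ∃ B H₀ : ℕ, ∀ H : ℕ, H₀ ≤ H →
    ∀ (P : ℤ[X]) (Y : ℕ), AdmP P → P.natDegree ≤ g → (∀ i, |P.coeff i| ≤ (H : ℤ) ^ C) →
    Y ≤ H ^ C → (∀ n ∈ Ioc Y (Y + H), fn P (n : ℤ) ≠ 0) → ∀ A : Finset ℕ, A ⊆ Ioc Y (Y + H) →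
    (∀ n ∈ A, ∀ p : ℕ, p.Prime → (p : ℝ) ≤ (H : ℝ) ^ δ → ¬ (p : ℤ) ∣ fn P (n : ℤ)) →
    κ * (H * V (fn P) 1 H) ≤ A.card →
    ∃ x d : ℕ, 1 ≤ d ∧ (d : ℝ) ≤ Real.log H ^ B ∧ ∀ i < k, x + i * d ∈ A := by
  classical
  obtain ⟨G, hG⟩ : ∃ G : ℕ, G = (C + (C + 2) * g + 1) + g := ⟨_, rfl⟩
  obtain ⟨εE, hεE, B, H₂, hE⟩ := eng2_all (max k 2) G δ (κ / 2) (le_max_right _ _) hδ (by positivity)
  obtain ⟨H₃, hX⟩ := badP g B εE hεE
  obtain ⟨H₄, hL⟩ := larP g C (2 * B) (1 / (4 * ((G : ℝ) + 1))) (by positivity)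
  have hcast : Tendsto (fun H : ℕ => (H : ℝ)) atTop atTop := tendsto_natCast_atTop_atTop
  have hlog : Tendsto (fun H : ℕ => Real.log (H : ℝ)) atTop atTop :=
    Real.tendsto_log_atTop.comp hcast
  have hsq : Tendsto (fun H : ℕ => √(Real.log (H : ℝ))) atTop atTop :=
    Real.tendsto_sqrt_atTop.comp hlog
  have hex : Tendsto (fun H : ℕ => Real.exp (√(Real.log (H : ℝ)))) atTop atTop :=
    Real.tendsto_exp_atTop.comp hsq
  obtain ⟨H₅, hH₅⟩ := eventually_atTop.1 (hex.eventually_ge_atTop ((2 * (G + 1) : ℕ) : ℝ))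
  obtain ⟨H₆, hH₆⟩ := eventually_atTop.1 (hlog.eventually_ge_atTop (2 * ((g : ℝ) ^ 2 + 1)))
  refine ⟨B, H₂ + H₃ + H₄ + H₅ + H₆ + g + 3, fun H hH P Y hA hg hc hY hne A hAs hAr hAc => ?_⟩
  have n9 := hH₅ H (by omega)
  have n8 := hH₆ H (by omega)
  have hH3 : 3 ≤ H := by omega
  have hlog0 : 0 ≤ Real.log H := Real.log_natCast_nonneg H
  have hlog1 : 1 ≤ Real.log H := by
    have : (0 : ℝ) ≤ (g : ℝ) ^ 2 := by positivity
    linarith
  obtain ⟨bad, hbd⟩ : ∃ bad : ℕ → Prop, bad = fun p : ℕ => Real.exp (√(Real.log H)) ≤ p ∧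
    ∃ h : ℕ, 1 ≤ h ∧ (h : ℝ) ≤ Real.log H ^ (2 * B) ∧ RR P h ≠ 0 ∧ (p : ℤ) ∣ RR P h :=
      ⟨_, rfl⟩
  have hsg : SysP g (fn P) := sysP_poly g P hA hg
  have hsG : SysP G (fn P) := sysP_poly G P hA (by rw [hG]; omega)
  obtain ⟨F, hF⟩ : ∃ F : ℤ → ℤ, F = strip (fn P) H bad := ⟨_, rfl⟩
  obtain ⟨s1, s2, s3, s4⟩ := stripP G (fn P) H bad hsG
  rw [← hF] at s1 s2 s3 s4
  have hP0 : P ≠ 0 := by
    rintro rfl
    obtain ⟨x, hx⟩ := hA 2 Nat.prime_two
    simp at hx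
  have hCF : ∀ h p : ℕ, p.Prime → CF F h p → CF (fn P) h p ∧ ¬ bad p := by
    rintro h p hp ⟨x, hx, hx'⟩
    have g1 := (s2 x p hp).1 hx
    have g2 := (s2 (x + h) p hp).1 hx'
    exact ⟨⟨x, g1.2.2, g2.2.2⟩, g1.2.1⟩
  have hVb : V F 1 H ≤ 2 * V (fn P) 1 H := by
    apply s4
    · have h1 := hL H (by omega) P hg hc
      refine le_trans (le_of_eq ?_) h1
      apply sum_congr _ (fun _ _ => rfl)
      ext p
      simp only [mem_filter, hbd]
    · intro p hp hbp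
      rw [hbd] at hbp
      have h1 := n9.trans hbp.1
      exact_mod_cast h1
  obtain ⟨x, d, hd1, hd2, hAP⟩ := hE F Y H A s1 (by omega)
    (by
      intro n hn
      obtain ⟨g1, g2⟩ := s3 n (hne n hn)
      refine ⟨g1, g2.trans ((fn_le g C H Y (by omega) P hg hc hY n (mem_Ioc.1 hn).2).trans ?_)⟩
      exact pow_le_pow_right₀ (by exact_mod_cast (show 1 ≤ H by omega)) (by rw [hG]; exact Nat.le_add_right _ _))
    (by
      intro W N hW1 hW2 hN1 hN2 hWp
      have hb := hX H (by omega) (fn P) hsg W N hN1 hN2 hWp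
      have hz : (((Icc 1 N).filter (fun j : ℕ => RR P ((W * j : ℕ) : ℤ) = 0)).card : ℝ) ≤
          1 / 2 * (N : ℝ) ^ (4 / 5 : ℝ) := by
        have h1 := RR_few P W hW1 ((Icc 1 N).filter (fun j : ℕ => RR P ((W * j : ℕ) : ℤ) = 0))
          (fun j hj => (mem_filter.1 hj).2) hP0
        have h2 : (((Icc 1 N).filter (fun j : ℕ => RR P ((W * j : ℕ) : ℤ) = 0)).card : ℝ) ≤ (g : ℝ) ^ 2 := by
          have h3 : ((Icc 1 N).filter (fun j : ℕ => RR P ((W * j : ℕ) : ℤ) = 0)).card ≤ g ^ 2 :=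
            h1.trans (Nat.pow_le_pow_left hg 2)
          exact_mod_cast h3
        refine h2.trans ?_
        have h4 : Real.log H ≤ (N : ℝ) ^ (4 / 5 : ℝ) := by
          have h5 : (1 : ℝ) ≤ Real.log H ^ 8 := one_le_pow₀ hlog1
          calc Real.log H = Real.log H ^ (1 : ℝ) := (Real.rpow_one _).symm
            _ ≤ Real.log H ^ ((8 : ℝ) * (4 / 5)) := Real.rpow_le_rpow_of_exponent_le hlog1 (by norm_num)
            _ = (Real.log H ^ 8) ^ (4 / 5 : ℝ) := by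
                rw [Real.rpow_mul hlog0]
                norm_cast
            _ ≤ (N : ℝ) ^ (4 / 5 : ℝ) := Real.rpow_le_rpow (by positivity) hN1 (by norm_num)
        have : (0 : ℝ) ≤ (g : ℝ) ^ 2 := by positivity
        linarith
      have hsub : (Icc 1 N).filter (fun j : ℕ =>
          εE < ∑ p ∈ (PS W H).filter (fun p : ℕ => CF F (W * j) p), (1 : ℝ) / p ∨
            ∃ p : ℕ, p.Prime ∧ Real.exp (√(Real.log H)) ≤ p ∧ CF F (W * j) p) ⊆
          (Icc 1 N).filter (fun j : ℕ =>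
            εE < ∑ p ∈ (PS W H).filter (fun p : ℕ => CF (fn P) (W * j) p), (1 : ℝ) / p) ∪
          (Icc 1 N).filter (fun j : ℕ => RR P ((W * j : ℕ) : ℤ) = 0) := by
        intro j hj
        rw [mem_union, mem_filter, mem_filter]
        rw [mem_filter] at hj
        rcases hj.2 with h1 | ⟨p, hp, hpe, hcf⟩
        · left
          refine ⟨hj.1, lt_of_lt_of_le h1 ?_⟩
          apply sum_le_sum_of_subset_of_nonneg
          · intro p hp
            rw [mem_filter] at hp ⊢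
            have hp1 := hp.1
            unfold PS at hp1
            rw [mem_filter] at hp1
            exact ⟨hp.1, (hCF _ p hp1.2.1 hp.2).1⟩
          · intro p _ _
            positivity
        · right
          refine ⟨hj.1, ?_⟩
          obtain ⟨g1, g2⟩ := hCF _ p hp hcf
          have h3 := cf_RR P hA hp g1
          by_contra h4
          apply g2
          rw [hbd]
          rw [mem_Icc] at hj
          refine ⟨hpe, W * j, Nat.mul_pos hW1 hj.1.1, ?_, h4, h3⟩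
          have h5 : (j : ℝ) ≤ Real.log H ^ B := le_trans (by exact_mod_cast hj.1.2) hN2
          push_cast
          calc (W : ℝ) * j ≤ Real.log H ^ B * Real.log H ^ B := by gcongr
            _ = Real.log H ^ (2 * B) := by rw [← pow_add, two_mul]
      have h1 : (((Icc 1 N).filter (fun j : ℕ =>
          εE < ∑ p ∈ (PS W H).filter (fun p : ℕ => CF F (W * j) p), (1 : ℝ) / p ∨
            ∃ p : ℕ, p.Prime ∧ Real.exp (√(Real.log H)) ≤ p ∧ CF F (W * j) p)).card : ℝ) ≤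
          (((Icc 1 N).filter (fun j : ℕ =>
            εE < ∑ p ∈ (PS W H).filter (fun p : ℕ => CF (fn P) (W * j) p), (1 : ℝ) / p)).card : ℝ) +
          (((Icc 1 N).filter (fun j : ℕ => RR P ((W * j : ℕ) : ℤ) = 0)).card : ℝ) := by
        exact_mod_cast (card_le_card hsub).trans (card_union_le _ _)
      linarith)
    hAs
    (by
      intro n hn p hp hpH hpd
      exact hAr n hn p hp hpH ((s2 n p hp).1 hpd).2.2)
    (by
      refine le_trans ?_ hAc
      have hH0 : (0 : ℝ) ≤ H := Nat.cast_nonneg _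
      calc κ / 2 * (H * V F 1 H) ≤ κ / 2 * (H * (2 * V (fn P) 1 H)) := by gcongr
        _ = κ * (H * V (fn P) 1 H) := by ring)
  exact ⟨x, d, hd1, hd2, fun i hi => hAP i (lt_of_lt_of_le hi (le_max_left _ _))⟩

end Pool.Agent.Zk41.PY
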