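import Pool.Agent.Zk41.LS.D

/-!
Zk41/PY (helper41): for every system `F` (at most `g` classes modulo every prime) and most differences `W j` the common
prime factors of `F x` and `F (x + W j)` are few.
-/

set_option autoImplicit false

open Finset Filter Topology

namespace Pool.Agent.Zk41.PY

open Pool.Agent.TH423.SH (PS)
open Pool.Agent.Y677.RSZ (rt V ev_log)
open Pool.Agent.K3h89.SZ (SysP CF perP)
open Pool.Agent.K3h89.SX (mom)
open Pool.Agent.K3h89.SX.Mom (count_class sum_sq_le)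

/-- the roots modulo `p` -/
def ro (F : ℤ → ℤ) (p : ℕ) : Finset ℕ := (range p).filter (fun r : ℕ => (p : ℤ) ∣ F r)

lemma enum (g : ℕ) (S : Finset ℕ) (h : S.card ≤ g) : ∃ e : Fin g → ℕ, ∀ x ∈ S, ∃ i, e i = x := by
  classical
  refine ⟨fun i => if hi : (i : ℕ) < S.card then S.orderEmbOfFin rfl ⟨i, hi⟩ else 0, fun x hx => ?_⟩
  have h1 : x ∈ Set.range (S.orderEmbOfFin rfl) := by
    rw [range_orderEmbOfFin]
    exact hx
  obtain ⟨k, hk⟩ := h1
  refine ⟨⟨k, lt_of_lt_of_le k.2 h⟩, ?_⟩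
  simp only [Fin.is_lt, dif_pos]
  exact hk

/-- the enumerated roots -/
noncomputable def er (g : ℕ) (F : ℤ → ℤ) (p : ℕ) : Fin g → ℕ := by
  classical
  exact if h : (ro F p).card ≤ g then (enum g (ro F p) h).choose else fun _ => 0

lemma er_spec {g : ℕ} {F : ℤ → ℤ} (hF : SysP g F) {p : ℕ} (hp : p.Prime) (x : ℕ) (hx : x ∈ ro F p) :
    ∃ i, er g F p i = x := by
  have h : (ro F p).card ≤ g := (hF.root p hp).1
  unfold er
  rw [dif_pos h]
  exact (enum g (ro F p) h).choose_spec x hx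

/-- the class of differences of two roots -/
noncomputable def df (g : ℕ) (F : ℤ → ℤ) (q : Fin g × Fin g) (p : ℕ) : ℤ := (er g F p q.1 : ℤ) - er g F p q.2

lemma cf_df {g : ℕ} {F : ℤ → ℤ} (hF : SysP g F) {p h : ℕ} (hp : p.Prime) (hc : CF F h p) :
    ∃ q, (p : ℤ) ∣ df g F q p + h := by
  obtain ⟨x, hx, hy⟩ := hc
  have hp0 : (0 : ℤ) < p := by exact_mod_cast hp.pos
  have key : ∀ y : ℤ, (p : ℤ) ∣ F y → ∃ u ∈ ro F p, (p : ℤ) ∣ y - u := by
    intro y hy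
    have h1 : (((y % p).toNat : ℕ) : ℤ) = y % p := Int.toNat_of_nonneg (Int.emod_nonneg _ hp0.ne')
    have h2 : (p : ℤ) ∣ y - (((y % p).toNat : ℕ) : ℤ) := by
      rw [h1]
      exact Int.dvd_self_sub_emod
    refine ⟨(y % p).toNat, ?_, h2⟩
    unfold ro
    rw [mem_filter, mem_range]
    refine ⟨?_, ?_⟩
    · have := Int.emod_lt_of_pos y hp0
      have h3 : (((y % p).toNat : ℕ) : ℤ) < p := by rw [h1]; exact this
      exact_mod_cast h3
    · exact (perP (hF.per p hp) _ _ h2).1 hy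
  obtain ⟨u, hu, hxu⟩ := key x hx
  obtain ⟨v, hv, hyv⟩ := key (x + h) hy
  obtain ⟨i, hi⟩ := er_spec hF hp u hu
  obtain ⟨j, hj⟩ := er_spec hF hp v hv
  refine ⟨(i, j), ?_⟩
  unfold df
  simp only
  rw [hi, hj]
  have e : (u : ℤ) - v + h = (x + h - v) - (x - u) := by ring
  rw [e]
  exact hyv.sub hxu

lemma crtZ (z : ℕ) (t : ℕ → ℤ) : ∃ a : ℤ, ∀ p ∈ (Icc 1 z).filter Nat.Prime, (p : ℤ) ∣ a - t p := by
  have h := Nat.chineseRemainderOfFinset (fun p : ℕ => (t p % p).toNat) (fun p => p) ((Icc 1 z).filter Nat.Prime)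
    (fun p hp => (mem_filter.1 hp).2.ne_zero) (by
      intro p hp q hq hne
      exact (Nat.coprime_primes (mem_filter.1 hp).2 (mem_filter.1 hq).2).2 hne)
  obtain ⟨k, hk⟩ := h
  refine ⟨k, fun p hp => ?_⟩
  have h1 := hk p hp
  have hp0 : (0 : ℤ) < p := by exact_mod_cast (mem_filter.1 hp).2.pos
  have h2 : (((t p % p).toNat : ℕ) : ℤ) = t p % p := Int.toNat_of_nonneg (Int.emod_nonneg _ hp0.ne')
  have h3 : (p : ℤ) ∣ (k : ℤ) - (((t p % p).toNat : ℕ) : ℤ) := (Nat.modEq_iff_dvd).1 h1.symm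
  rw [h2] at h3
  have h4 : (p : ℤ) ∣ t p - t p % p := Int.dvd_self_sub_emod
  have e : (k : ℤ) - t p = (k - t p % p) - (t p - t p % p) := by ring
  rw [e]
  exact h3.sub h4

open Classical in
theorem badP (g B : ℕ) (ε : ℝ) (hε : 0 < ε) : ∃ H₀ : ℕ, ∀ H : ℕ, H₀ ≤ H → ∀ F : ℤ → ℤ, SysP g F →
    ∀ W N : ℕ, Real.log H ^ 8 ≤ N → (N : ℝ) ≤ Real.log H ^ B →
    (∀ p : ℕ, p.Prime → (p : ℝ) ≤ Real.log N → p ∣ W) →
    (((Icc 1 N).filter (fun j : ℕ =>
      ε < ∑ p ∈ (PS W H).filter (fun p : ℕ => CF F (W * j) p), (1 : ℝ) / p)).card : ℝ) ≤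
        1 / 2 * (N : ℝ) ^ (4 / 5 : ℝ) := by
  obtain ⟨ε', hε'⟩ : ∃ ε' : ℝ, ε' = ε / (2 * ((g : ℝ) ^ 2 + 1)) := ⟨_, rfl⟩
  have hε0 : 0 < ε' := by rw [hε']; positivity
  obtain ⟨N₀, hMOM⟩ := mom ε' hε0
  have hlog : Filter.Tendsto (fun H : ℕ => Real.log H) Filter.atTop Filter.atTop :=
    Real.tendsto_log_atTop.comp tendsto_natCast_atTop_atTop
  obtain ⟨K, hK⟩ : ∃ K : ℝ, K = 2 * (((g : ℝ) ^ 2 + 1) * (1 + 12 / ε)) := ⟨_, rfl⟩
  have hK0 : 0 < K := by rw [hK]; positivity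
  obtain ⟨H₀, hH₀⟩ := Filter.eventually_atTop.1 ((((hlog.eventually_ge_atTop
    (8 : ℝ)).and (hlog.eventually_ge_atTop (N₀ : ℝ))).and
    (hlog.eventually_ge_atTop (K ^ 20))).and (Filter.eventually_ge_atTop (5 : ℕ)))
  refine ⟨H₀, ?_⟩
  intro H hH F hF W N hlN hNB hpW
  obtain ⟨⟨⟨e1, e2⟩, e3⟩, e6⟩ := hH₀ H hH
  obtain ⟨l, hl⟩ : ∃ l : ℝ, l = Real.log H := ⟨_, rfl⟩
  rw [← hl] at e1 e2 e3 hlN hNB
  have hl0 : 0 < l := by linarith
  have hl1 : 1 ≤ l := by linarith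
  have hN1 : l ≤ N := le_trans (le_self_pow₀ hl1 (by norm_num)) hlN
  have hN0 : (0 : ℝ) < N := by linarith
  have hNN₀ : N₀ ≤ N := by
    have : (N₀ : ℝ) ≤ N := e2.trans hN1
    exact_mod_cast this
  obtain ⟨z, hz⟩ : ∃ z : ℕ, z = Nat.sqrt (Nat.sqrt N) := ⟨_, rfl⟩
  have hz4 : z ^ 4 ≤ N := by
    have h3 : z * z ≤ Nat.sqrt N := by rw [hz]; exact Nat.sqrt_le _
    have h4 : Nat.sqrt N * Nat.sqrt N ≤ N := Nat.sqrt_le _
    calc z ^ 4 = (z * z) * (z * z) := by ring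
      _ ≤ Nat.sqrt N * Nat.sqrt N := Nat.mul_le_mul h3 h3
      _ ≤ N := h4
  have hz4' : N < (z + 1) ^ 4 := by
    have h3 : Nat.sqrt N < (z + 1) * (z + 1) := by rw [hz]; exact Nat.lt_succ_sqrt _
    have h4 : N < (Nat.sqrt N + 1) * (Nat.sqrt N + 1) := Nat.lt_succ_sqrt _
    calc N < (Nat.sqrt N + 1) * (Nat.sqrt N + 1) := h4
      _ ≤ ((z + 1) * (z + 1)) * ((z + 1) * (z + 1)) := Nat.mul_le_mul h3 h3
      _ = (z + 1) ^ 4 := by ring
  have hN14 : (N : ℝ) ^ (1 / 4 : ℝ) ≤ z + 1 := by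
    have h1 : (N : ℝ) ≤ ((z : ℝ) + 1) ^ 4 := by exact_mod_cast hz4'.le
    have h2 : (N : ℝ) ^ (1 / 4 : ℝ) ≤ (((z : ℝ) + 1) ^ 4) ^ (1 / 4 : ℝ) :=
      Real.rpow_le_rpow hN0.le h1 (by norm_num)
    rw [← Real.rpow_natCast, ← Real.rpow_mul (by positivity)] at h2
    norm_num at h2
    exact h2
  have hl2 : l ^ 2 ≤ (N : ℝ) ^ (1 / 4 : ℝ) := by
    have h2 : (l ^ 8) ^ (1 / 4 : ℝ) ≤ (N : ℝ) ^ (1 / 4 : ℝ) := Real.rpow_le_rpow (by positivity) hlN (by norm_num)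
    rw [← Real.rpow_natCast, ← Real.rpow_mul hl0.le] at h2
    norm_num at h2
    exact h2
  have hz3 : (3 : ℝ) ≤ z := by nlinarith
  have hz0 : (0 : ℝ) < z := by linarith
  have hNz : (N : ℝ) / z ≤ 2 * (N : ℝ) ^ (3 / 4 : ℝ) := by
    rw [div_le_iff₀ hz0]
    have h1 : (N : ℝ) ^ (1 / 4 : ℝ) ≤ 2 * z := by linarith
    calc (N : ℝ) = (N : ℝ) ^ (3 / 4 : ℝ) * (N : ℝ) ^ (1 / 4 : ℝ) := by
          rw [← Real.rpow_add hN0]
          norm_num
      _ ≤ (N : ℝ) ^ (3 / 4 : ℝ) * (2 * z) := mul_le_mul_of_nonneg_left h1 (by positivity)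
      _ = _ := by ring
  have hlN34 : 2 * l ≤ (N : ℝ) ^ (3 / 4 : ℝ) := by
    have h1 : (N : ℝ) ^ (1 / 4 : ℝ) ≤ (N : ℝ) ^ (3 / 4 : ℝ) :=
      Real.rpow_le_rpow_of_exponent_le (by linarith) (by norm_num)
    nlinarith
  -- the small primes
  have hcrt : ∀ q : Fin g × Fin g, ∃ a : ℤ, ∀ p ∈ (Icc 1 z).filter Nat.Prime, (p : ℤ) ∣ a - df g F q p :=
    fun q => crtZ z (df g F q)
  choose a ha using hcrt
  set bad := fun q : Fin g × Fin g => (Icc 1 N).filter (fun k : ℕ => ε' < ∑ p ∈ (Icc 1 z).filter (fun p : ℕ =>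
    p.Prime ∧ Real.log N < p ∧ ¬ p ∣ W ∧ (p : ℤ) ∣ a q + (W : ℤ) * k), (1 : ℝ) / p) with hbad
  have hbc : ∀ q, ((bad q).card : ℝ) ≤ (N : ℝ) ^ (3 / 4 : ℝ) := by
    intro q
    rw [hbad]
    convert hMOM (a q) W N z hNN₀ hz4
  -- the large primes
  set LP := (PS W H).filter (fun p => z < p) with hLP
  have hLPm : ∀ p ∈ LP, p.Prime ∧ ¬ p ∣ W ∧ z < p ∧ p ≤ H ∧ 1 ≤ p := by
    intro p hp
    rw [hLP, mem_filter] at hp
    have h1 := hp.1
    unfold PS at h1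
    rw [mem_filter, mem_Icc] at h1
    exact ⟨h1.2.1, h1.2.2, hp.2, h1.1.2, h1.1.1⟩
  set SL := fun j : ℕ => ∑ p ∈ LP.filter (fun p => CF F (W * j) p), (1 : ℝ) / p with hSL
  have hcnt : ∀ p ∈ LP, (((Icc 1 N).filter (fun j => CF F (W * j) p)).card : ℝ) ≤ (g : ℝ) ^ 2 * (N / p + 1) := by
    intro p hp
    obtain ⟨p1, p2, p3, p4, p5⟩ := hLPm p hp
    have h1 : (Icc 1 N).filter (fun j => CF F (W * j) p) ⊆ (univ : Finset (Fin g × Fin g)).biUnion
        (fun q => (Icc 1 N).filter (fun j : ℕ => (p : ℤ) ∣ df g F q p + (W : ℤ) * j)) := by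
      intro j hj
      rw [mem_filter] at hj
      obtain ⟨q, hq⟩ := cf_df hF p1 hj.2
      rw [mem_biUnion]
      refine ⟨q, mem_univ _, mem_filter.2 ⟨hj.1, ?_⟩⟩
      push_cast at hq
      exact hq
    have h2 := (card_le_card h1).trans card_biUnion_le
    have hcop : Nat.Coprime p W := (p1.coprime_iff_not_dvd).2 p2
    have h3 : ∑ q : Fin g × Fin g, ((Icc 1 N).filter (fun j : ℕ => (p : ℤ) ∣ df g F q p + (W : ℤ) * j)).card ≤
        ∑ _q : Fin g × Fin g, (N / p + 1) := sum_le_sum fun q _ => count_class (df g F q p) hcop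
    rw [sum_const, card_univ, Fintype.card_prod, Fintype.card_fin, smul_eq_mul] at h3
    have h4 : (((Icc 1 N).filter (fun j => CF F (W * j) p)).card : ℝ) ≤ ((g * g * (N / p + 1) : ℕ) : ℝ) := by
      exact_mod_cast h2.trans h3
    push_cast at h4
    have h5 : ((N / p : ℕ) : ℝ) ≤ (N : ℝ) / p := Nat.cast_div_le
    have h6 : (0 : ℝ) ≤ (g : ℝ) * g := by positivity
    nlinarith
  have htot : ∑ j ∈ Icc 1 N, SL j ≤ ((g : ℝ) ^ 2 + 1) * (6 * (N : ℝ) ^ (3 / 4 : ℝ)) := by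
    calc ∑ j ∈ Icc 1 N, SL j = ∑ j ∈ Icc 1 N, ∑ p ∈ LP, (if CF F (W * j) p then (1 : ℝ) / p else 0) := by
          refine sum_congr rfl fun j _ => ?_
          rw [hSL]
          simp only
          rw [sum_filter]
      _ = ∑ p ∈ LP, ∑ j ∈ Icc 1 N, (if CF F (W * j) p then (1 : ℝ) / p else 0) := sum_comm
      _ = ∑ p ∈ LP, (1 : ℝ) / p * (((Icc 1 N).filter (fun j => CF F (W * j) p)).card : ℝ) := by
          refine sum_congr rfl fun p _ => ?_
          rw [← sum_filter, sum_const, nsmul_eq_mul, mul_comm]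
      _ ≤ ∑ p ∈ LP, (1 : ℝ) / p * ((g : ℝ) ^ 2 * (N / p + 1)) :=
          sum_le_sum fun p hp => mul_le_mul_of_nonneg_left (hcnt p hp) (by positivity)
      _ = (g : ℝ) ^ 2 * (N * ∑ p ∈ LP, 1 / (p : ℝ) ^ 2 + ∑ p ∈ LP, 1 / (p : ℝ)) := by
          rw [mul_add, mul_sum, mul_sum, mul_sum, ← sum_add_distrib]
          refine sum_congr rfl fun p _ => ?_
          ring
      _ ≤ (g : ℝ) ^ 2 * (N * (2 / z) + 2 * l) := by
          apply mul_le_mul_of_nonneg_left _ (by positivity)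
          apply add_le_add
          · apply mul_le_mul_of_nonneg_left _ hN0.le
            exact sum_sq_le (by linarith) LP fun p hp => by exact_mod_cast (hLPm p hp).2.2.1
          · have h1 : ∑ p ∈ LP, 1 / (p : ℝ) ≤ ∑ n ∈ Icc 1 H, 1 / (n : ℝ) := by
              apply sum_le_sum_of_subset_of_nonneg
              · intro p hp
                obtain ⟨p1, p2, p3, p4, p5⟩ := hLPm p hp
                exact mem_Icc.2 ⟨p5, p4⟩
              · intro _ _ _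
                positivity
            have h2 : ∑ n ∈ Icc 1 H, 1 / (n : ℝ) ≤ 1 + Real.log H := by
              have h3 := harmonic_le_one_add_log H
              have h4 : ((harmonic H : ℚ) : ℝ) = ∑ n ∈ Icc 1 H, 1 / (n : ℝ) := by
                rw [harmonic_eq_sum_Icc]
                push_cast
                exact sum_congr rfl fun n _ => by rw [one_div]
              rw [h4] at h3
              exact h3
            rw [← hl] at h2
            linarith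
      _ ≤ _ := by
          have h1 : (N : ℝ) * (2 / z) = 2 * (N / z) := by ring
          have h2 : (N : ℝ) * (2 / z) + 2 * l ≤ 6 * (N : ℝ) ^ (3 / 4 : ℝ) := by
            rw [h1]
            linarith [Real.rpow_pos_of_pos hN0 (3 / 4 : ℝ)]
          have h3 : (0 : ℝ) ≤ (N : ℝ) ^ (3 / 4 : ℝ) := by positivity
          calc (g : ℝ) ^ 2 * ((N : ℝ) * (2 / z) + 2 * l) ≤ (g : ℝ) ^ 2 * (6 * (N : ℝ) ^ (3 / 4 : ℝ)) :=
                mul_le_mul_of_nonneg_left h2 (by positivity)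
            _ ≤ _ := by nlinarith
  set BL := (Icc 1 N).filter (fun j => ε / 2 < SL j) with hBL
  have hBLc : (BL.card : ℝ) ≤ ((g : ℝ) ^ 2 + 1) * (12 / ε) * (N : ℝ) ^ (3 / 4 : ℝ) := by
    have h1 : (BL.card : ℝ) * (ε / 2) ≤ ∑ j ∈ Icc 1 N, SL j := by
      calc (BL.card : ℝ) * (ε / 2) = ∑ _j ∈ BL, ε / 2 := by rw [sum_const, nsmul_eq_mul]
        _ ≤ ∑ j ∈ BL, SL j := sum_le_sum fun j hj => (mem_filter.1 hj).2.le
        _ ≤ _ := sum_le_sum_of_subset_of_nonneg (filter_subset _ _) fun j _ _ =>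
            sum_nonneg fun _ _ => by positivity
    have h2 := h1.trans htot
    have h3 : ((g : ℝ) ^ 2 + 1) * (12 / ε) * (N : ℝ) ^ (3 / 4 : ℝ) * (ε / 2) =
        ((g : ℝ) ^ 2 + 1) * (6 * (N : ℝ) ^ (3 / 4 : ℝ)) := by
      field_simp
      ring
    rw [← h3] at h2
    exact le_of_mul_le_mul_right h2 (by positivity)
  -- all bad differences
  have hsub : (Icc 1 N).filter (fun j : ℕ =>
      ε < ∑ p ∈ (PS W H).filter (fun p : ℕ => CF F (W * j) p), (1 : ℝ) / p) ⊆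
      (univ : Finset (Fin g × Fin g)).biUnion bad ∪ BL := by
    intro j hj
    rw [mem_filter] at hj
    obtain ⟨hjN, hjε⟩ := hj
    by_contra hcon
    rw [mem_union, not_or] at hcon
    obtain ⟨c1, c2⟩ := hcon
    have hgb : ∀ q : Fin g × Fin g, ∑ p ∈ (Icc 1 z).filter (fun p : ℕ =>
        p.Prime ∧ Real.log N < p ∧ ¬ p ∣ W ∧ (p : ℤ) ∣ a q + (W : ℤ) * j), (1 : ℝ) / p ≤ ε' := by
      intro q
      by_contra h1
      push Not at h1
      apply c1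
      rw [mem_biUnion]
      exact ⟨q, mem_univ _, mem_filter.2 ⟨hjN, h1⟩⟩
    have hSLj : SL j ≤ ε / 2 := by
      by_contra h1
      push Not at h1
      exact c2 (mem_filter.2 ⟨hjN, h1⟩)
    set S0 := (PS W H).filter (fun p : ℕ => CF F (W * j) p) with hS0
    set T1 := fun q : Fin g × Fin g => (Icc 1 z).filter (fun p : ℕ =>
      p.Prime ∧ Real.log N < p ∧ ¬ p ∣ W ∧ (p : ℤ) ∣ a q + (W : ℤ) * j) with hT1
    have hsplit : ∑ p ∈ S0, (1 : ℝ) / p = ∑ p ∈ S0.filter (fun p => p ≤ z), (1 : ℝ) / p +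
        ∑ p ∈ S0.filter (fun p => ¬ p ≤ z), (1 : ℝ) / p := (sum_filter_add_sum_filter_not _ _ _).symm
    have hA : ∑ p ∈ S0.filter (fun p => p ≤ z), (1 : ℝ) / p ≤ ∑ q : Fin g × Fin g, ∑ p ∈ T1 q, (1 : ℝ) / p := by
      apply Pool.Agent.Zk41.LS.sum_biU
      intro p hp
      rw [mem_filter, hS0, mem_filter] at hp
      obtain ⟨⟨h1, h2⟩, h3⟩ := hp
      unfold PS at h1
      rw [mem_filter, mem_Icc] at h1
      obtain ⟨q, hq⟩ := cf_df hF h1.2.1 h2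
      refine ⟨q, mem_univ _, ?_⟩
      rw [hT1]
      simp only [mem_filter, mem_Icc]
      refine ⟨⟨h1.1.1, h3⟩, h1.2.1, ?_, h1.2.2, ?_⟩
      · by_contra h4
        push Not at h4
        exact h1.2.2 (hpW p h1.2.1 h4)
      · have h4 := ha q p (mem_filter.2 ⟨mem_Icc.2 ⟨h1.1.1, h3⟩, h1.2.1⟩)
        push_cast at hq
        have e : a q + (W : ℤ) * j = (a q - df g F q p) + (df g F q p + W * j) := by ring
        rw [e]
        exact h4.add hq
    have hB : ∑ p ∈ S0.filter (fun p => ¬ p ≤ z), (1 : ℝ) / p ≤ SL j := by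
      rw [hSL]
      simp only
      apply sum_le_sum_of_subset_of_nonneg
      · intro p hp
        rw [mem_filter, hS0, mem_filter] at hp
        rw [mem_filter, hLP, mem_filter]
        exact ⟨⟨hp.1.1, by omega⟩, hp.1.2⟩
      · intro _ _ _
        positivity
    have hC : ∑ q : Fin g × Fin g, ∑ p ∈ T1 q, (1 : ℝ) / p ≤ (g : ℝ) ^ 2 * ε' := by
      calc ∑ q : Fin g × Fin g, ∑ p ∈ T1 q, (1 : ℝ) / p ≤ ∑ _q : Fin g × Fin g, ε' :=
            sum_le_sum fun q _ => hgb q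
        _ = (g : ℝ) ^ 2 * ε' := by
            rw [sum_const, card_univ, Fintype.card_prod, Fintype.card_fin, nsmul_eq_mul]
            push_cast
            ring
    have hD : (g : ℝ) ^ 2 * ε' ≤ ε / 2 := by
      rw [hε', mul_div_assoc', div_le_div_iff₀ (by positivity) (by norm_num)]
      nlinarith
    linarith
  have h1 : (((Icc 1 N).filter (fun j : ℕ =>
      ε < ∑ p ∈ (PS W H).filter (fun p : ℕ => CF F (W * j) p), (1 : ℝ) / p)).card : ℝ) ≤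
      (g : ℝ) ^ 2 * (N : ℝ) ^ (3 / 4 : ℝ) + ((g : ℝ) ^ 2 + 1) * (12 / ε) * (N : ℝ) ^ (3 / 4 : ℝ) := by
    have h2 := (card_le_card hsub).trans (card_union_le _ _)
    have h3 : (((univ : Finset (Fin g × Fin g)).biUnion bad).card : ℝ) ≤ (g : ℝ) ^ 2 * (N : ℝ) ^ (3 / 4 : ℝ) := by
      have h4 : (((univ : Finset (Fin g × Fin g)).biUnion bad).card : ℝ) ≤ ∑ q : Fin g × Fin g, ((bad q).card : ℝ) := by
        exact_mod_cast card_biUnion_le
      refine h4.trans ?_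
      calc ∑ q : Fin g × Fin g, ((bad q).card : ℝ) ≤ ∑ _q : Fin g × Fin g, (N : ℝ) ^ (3 / 4 : ℝ) :=
            sum_le_sum fun q _ => hbc q
        _ = _ := by
            rw [sum_const, card_univ, Fintype.card_prod, Fintype.card_fin, nsmul_eq_mul]
            push_cast
            ring
    have h5 : (((Icc 1 N).filter (fun j : ℕ =>
      ε < ∑ p ∈ (PS W H).filter (fun p : ℕ => CF F (W * j) p), (1 : ℝ) / p)).card : ℝ) ≤
      (((univ : Finset (Fin g × Fin g)).biUnion bad).card : ℝ) + BL.card := by exact_mod_cast h2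
    linarith
  refine h1.trans ?_
  have h2 : (g : ℝ) ^ 2 * (N : ℝ) ^ (3 / 4 : ℝ) + ((g : ℝ) ^ 2 + 1) * (12 / ε) * (N : ℝ) ^ (3 / 4 : ℝ) ≤
      K / 2 * (N : ℝ) ^ (3 / 4 : ℝ) := by
    have h3 : (0 : ℝ) ≤ (N : ℝ) ^ (3 / 4 : ℝ) := by positivity
    have h4 : (g : ℝ) ^ 2 + ((g : ℝ) ^ 2 + 1) * (12 / ε) ≤ K / 2 := by
      rw [hK]
      have : 2 * (((g : ℝ) ^ 2 + 1) * (1 + 12 / ε)) / 2 = (g : ℝ) ^ 2 + ((g : ℝ) ^ 2 + 1) * (12 / ε) + 1 := by ring
      rw [this]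
      linarith
    calc _ = ((g : ℝ) ^ 2 + ((g : ℝ) ^ 2 + 1) * (12 / ε)) * (N : ℝ) ^ (3 / 4 : ℝ) := by ring
      _ ≤ _ := mul_le_mul_of_nonneg_right h4 h3
  refine h2.trans ?_
  have h5 : (N : ℝ) ^ (4 / 5 : ℝ) = (N : ℝ) ^ (1 / 20 : ℝ) * (N : ℝ) ^ (3 / 4 : ℝ) := by
    rw [← Real.rpow_add hN0]
    norm_num
  have h6 : K ≤ (N : ℝ) ^ (1 / 20 : ℝ) := by
    have h7 : (K ^ 20) ^ (1 / 20 : ℝ) ≤ (N : ℝ) ^ (1 / 20 : ℝ) :=
      Real.rpow_le_rpow (by positivity) (e3.trans hN1) (by norm_num)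
    rw [← Real.rpow_natCast, ← Real.rpow_mul hK0.le] at h7
    norm_num at h7
    exact h7
  rw [h5]
  have h3 : (0 : ℝ) ≤ (N : ℝ) ^ (3 / 4 : ℝ) := by positivity
  nlinarith [mul_le_mul_of_nonneg_right h6 h3]

end Pool.Agent.Zk41.PY
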