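import Pool.Agent.Zk41.PY.A
import Pool.Agent.K3h89.SZ.SYSQ

/-!
Zk41/PY (helper41): integral polynomials without fixed prime divisor: roots, common prime factors, resultants.
-/

set_option autoImplicit false

open Finset Filter Topology Polynomial

namespace Pool.Agent.Zk41.PY

open Pool.Agent.Y677.RSZ (rt V ev_log)
open Pool.Agent.K3h89.SZ (SysP CF perP)

/-- the function of a polynomial -/
def fn (P : ℤ[X]) (x : ℤ) : ℤ := P.eval x

/-- no prime divides all values -/
def AdmP (P : ℤ[X]) : Prop := ∀ p : ℕ, p.Prime → ∃ x : ℤ, ¬ (p : ℤ) ∣ P.eval x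

lemma dvd_iff (P : ℤ[X]) (p : ℤ) (x y : ℤ) (h : p ∣ y - x) : p ∣ P.eval y ↔ p ∣ P.eval x := by
  have h1 : p ∣ P.eval y - P.eval x := h.trans (Polynomial.sub_dvd_eval_sub y x P)
  exact (Int.dvd_iff_dvd_of_dvd_sub h1)

theorem sysP_poly (g : ℕ) (P : ℤ[X]) (hP : AdmP P) (hg : P.natDegree ≤ g) : SysP g (fn P) := by
  classical
  refine ⟨fun p _ n => dvd_iff P p n (n + p) (by simp), fun p hp => ?_⟩
  have := Fact.mk hp
  have hp0 : (0 : ℤ) < p := by exact_mod_cast hp.pos
  obtain ⟨x, hx⟩ := hP p hp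
  constructor
  · set Q : (ZMod p)[X] := P.map (Int.castRingHom (ZMod p)) with hQ
    have hev : ∀ y : ℤ, Q.eval (y : ZMod p) = ((P.eval y : ℤ) : ZMod p) := by
      intro y
      rw [hQ]
      have := Polynomial.eval_intCast_map (Int.castRingHom (ZMod p)) P y
      simpa using this
    have hQ0 : Q ≠ 0 := by
      intro h0
      have h1 := hev x
      rw [h0, eval_zero] at h1
      exact hx ((ZMod.intCast_zmod_eq_zero_iff_dvd _ p).1 h1.symm)
    have hdeg : Q.natDegree ≤ g := natDegree_map_le.trans hg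
    have hcard : Q.roots.toFinset.card ≤ g :=
      le_trans (Multiset.toFinset_card_le _) (le_trans (Polynomial.card_roots' Q) hdeg)
    refine le_trans ?_ hcard
    unfold rt
    refine Finset.card_le_card_of_injOn (fun r : ℕ => (r : ZMod p)) ?_ ?_
    · intro r hr
      have hr' := (Finset.mem_filter.1 hr).2
      rw [Finset.mem_coe, Multiset.mem_toFinset, Polynomial.mem_roots hQ0]
      show Q.eval (r : ZMod p) = 0
      have h1 := hev (r : ℤ)
      rw [Int.cast_natCast] at h1
      rw [h1]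
      exact (ZMod.intCast_zmod_eq_zero_iff_dvd _ p).2 hr'
    · intro r hr s hs hrs
      have hr1 := Finset.mem_range.1 (Finset.mem_filter.1 hr).1
      have hs1 := Finset.mem_range.1 (Finset.mem_filter.1 hs).1
      have h1 : (r : ZMod p) = (s : ZMod p) := hrs
      rw [ZMod.natCast_eq_natCast_iff'] at h1
      rwa [Nat.mod_eq_of_lt hr1, Nat.mod_eq_of_lt hs1] at h1
  · have h1 : (((x % p).toNat : ℕ) : ℤ) = x % p := Int.toNat_of_nonneg (Int.emod_nonneg _ hp0.ne')
    refine Pool.Agent.K3h89.SZ.sysq_lt (r := (x % p).toNat) ?_ ?_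
    · have := Int.emod_lt_of_pos x hp0
      have h3 : (((x % p).toNat : ℕ) : ℤ) < p := by rw [h1]; exact this
      exact_mod_cast h3
    · intro h2
      apply hx
      refine (dvd_iff P p _ x ?_).2 h2
      rw [h1]
      exact Int.dvd_self_sub_emod

/-- the resultant of `P(x)` and `P(x + h)` -/
noncomputable def RR (P : ℤ[X]) (h : ℤ) : ℤ := resultant P (taylor h P) P.natDegree P.natDegree

lemma eval_taylor' (P : ℤ[X]) (h x : ℤ) : (taylor h P).eval x = P.eval (x + h) := by
  rw [taylor_eval]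

theorem cf_RR (P : ℤ[X]) (hP : AdmP P) {h p : ℕ} (hp : p.Prime) (hc : CF (fn P) h p) : (p : ℤ) ∣ RR P h := by
  obtain ⟨x, hx, hy⟩ := hc
  unfold fn at hx hy
  rcases Nat.eq_zero_or_pos P.natDegree with h0 | h0
  · exfalso
    obtain ⟨y, hy'⟩ := hP p hp
    rw [eq_C_of_natDegree_eq_zero h0, eval_C] at hx hy'
    exact hy' hx
  · obtain ⟨u, v, -, -, e⟩ := exists_mul_add_mul_eq_C_resultant P (taylor (h : ℤ) P) (m := P.natDegree)
      (n := P.natDegree) le_rfl (by rw [natDegree_taylor]) (Or.inl h0.ne')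
    have e1 := congrArg (Polynomial.eval x) e
    rw [eval_add, eval_mul, eval_mul, eval_C, eval_taylor'] at e1
    unfold RR
    rw [← e1]
    exact (hx.mul_right _).add (hy.mul_right _)

theorem RR_few (P : ℤ[X]) (W : ℕ) (hW : 1 ≤ W) (J : Finset ℕ)
    (hJ : ∀ j ∈ J, RR P ((W * j : ℕ) : ℤ) = 0) (hP0 : P ≠ 0) : J.card ≤ P.natDegree ^ 2 := by
  classical
  set φ : ℤ →+* ℂ := Int.castRingHom ℂ with hφ
  have hinj : Function.Injective φ := Int.cast_injective
  set Q : ℂ[X] := P.map φ with hQ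
  have hQd : Q.natDegree = P.natDegree := natDegree_map_eq_of_injective hinj P
  have hQ0 : Q ≠ 0 := (Polynomial.map_ne_zero_iff hinj).2 hP0
  have key : ∀ j ∈ J, ∃ α ∈ Q.roots.toFinset, ∃ β ∈ Q.roots.toFinset, β = α + ((W * j : ℕ) : ℂ) := by
    intro j hj
    have h1 := hJ j hj
    unfold RR at h1
    have h2 := resultant_map_map P (taylor (((W * j : ℕ) : ℕ) : ℤ) P) P.natDegree P.natDegree φ
    rw [h1, map_zero] at h2
    have h3 := resultant_eq_prod_eval Q ((taylor (((W * j : ℕ) : ℕ) : ℤ) P).map φ) P.natDegree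
      (natDegree_map_le.trans (by rw [natDegree_taylor])) (IsAlgClosed.splits Q)
    rw [hQd, h2] at h3
    have h4 : (Q.roots.map (fun α => eval α ((taylor (((W * j : ℕ) : ℕ) : ℤ) P).map φ))).prod = 0 := by
      rcases mul_eq_zero.1 h3.symm with h5 | h5
      · exfalso
        have : Q.leadingCoeff ≠ 0 := leadingCoeff_ne_zero.2 hQ0
        exact pow_ne_zero _ this h5
      · exact h5
    rw [Multiset.prod_eq_zero_iff, Multiset.mem_map] at h4
    obtain ⟨α, hα, hα2⟩ := h4
    refine ⟨α, Multiset.mem_toFinset.2 hα, α + ((W * j : ℕ) : ℂ), ?_, rfl⟩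
    rw [Multiset.mem_toFinset, mem_roots hQ0]
    show Q.eval (α + ((W * j : ℕ) : ℂ)) = 0
    have h6 : (taylor (((W * j : ℕ) : ℕ) : ℤ) P).map φ = taylor ((W * j : ℕ) : ℂ) Q := by
      rw [hQ, taylor_apply, taylor_apply, Polynomial.map_comp]
      simp [hφ]
    rw [h6, taylor_eval] at hα2
    exact hα2
  choose! α hα β hβ hab using key
  have h1 : J.card ≤ (Q.roots.toFinset ×ˢ Q.roots.toFinset).card := by
    apply card_le_card_of_injOn (fun j => (α j, β j))
    · intro j hj
      rw [mem_coe, mem_product]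
      exact ⟨hα j hj, hβ j hj⟩
    · intro i hi j hj hij
      simp only [Prod.mk.injEq] at hij
      have e1 := hab i hi
      have e2 := hab j hj
      rw [hij.1, hij.2, e2] at e1
      have e3 := add_left_cancel e1
      have e4 : W * j = W * i := by exact_mod_cast e3
      exact (Nat.eq_of_mul_eq_mul_left hW e4).symm
  refine h1.trans ?_
  rw [card_product, sq]
  have h2 : Q.roots.toFinset.card ≤ P.natDegree := by
    rw [← hQd]
    exact (Multiset.toFinset_card_le _).trans (card_roots' Q)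
  exact Nat.mul_le_mul h2 h2

/-- the coefficients of `P(x + h)` -/
lemma coeff_taylor_le (P : ℤ[X]) (n : ℕ) (hn : P.natDegree ≤ n) (A : ℤ) (hA : ∀ i, |P.coeff i| ≤ A)
    (h : ℤ) (hh : 1 ≤ h) (i : ℕ) : |(taylor h P).coeff i| ≤ (n + 1) * (2 ^ n * A * h ^ n) := by
  have hA0 : 0 ≤ A := (abs_nonneg _).trans (hA 0)
  rw [taylor_coeff, eval_eq_sum_range' (n := n + 1) (Nat.lt_succ_of_le ((natDegree_hasseDeriv_le P i).trans
    ((Nat.sub_le _ _).trans hn)))]
  refine (abs_sum_le_sum_abs _ _).trans ?_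
  calc ∑ j ∈ range (n + 1), |(hasseDeriv i P).coeff j * h ^ j| ≤ ∑ _j ∈ range (n + 1), 2 ^ n * A * h ^ n := by
        apply sum_le_sum
        intro j hj
        rw [hasseDeriv_coeff, abs_mul, abs_mul]
        by_cases hij : j + i ≤ n
        · have h1 : |(((j + i).choose i : ℕ) : ℤ)| ≤ 2 ^ n := by
            rw [Nat.abs_cast]
            have h2 : (j + i).choose i ≤ 2 ^ (j + i) := Nat.choose_le_two_pow _ _
            have h3 : 2 ^ (j + i) ≤ 2 ^ n := Nat.pow_le_pow_right (by norm_num) hij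
            exact_mod_cast h2.trans h3
          have h2 : |h ^ j| ≤ h ^ n := by
            rw [abs_of_nonneg (by positivity)]
            exact pow_le_pow_right₀ hh (by omega)
          exact mul_le_mul (mul_le_mul h1 (hA _) (abs_nonneg _) (by positivity)) h2 (abs_nonneg _) (by positivity)
        · rw [coeff_eq_zero_of_natDegree_lt (by omega)]
          simp
          positivity
    _ = _ := by
        rw [sum_const, card_range, nsmul_eq_mul]
        push_cast
        ring

/-- the size of the resultant -/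
theorem RR_le (g C : ℕ) : ∃ C' H₀ : ℕ, ∀ H : ℕ, H₀ ≤ H → ∀ P : ℤ[X], P.natDegree ≤ g →
    (∀ i, |P.coeff i| ≤ (H : ℤ) ^ C) → ∀ h : ℕ, 1 ≤ h → h ≤ H → |RR P h| ≤ (H : ℤ) ^ C' := by
  refine ⟨(C + g + 1) * (2 * g) + 1, (g + 1) * 2 ^ g + (2 * g).factorial + 1, fun H hH P hP hc h hh1 hhH => ?_⟩
  have hH1 : 1 ≤ H := by omega
  have hH1' : (1 : ℤ) ≤ H := by exact_mod_cast hH1
  obtain ⟨M, hM⟩ : ∃ M : ℤ, M = (H : ℤ) ^ (C + g + 1) := ⟨_, rfl⟩
  have hM1 : 1 ≤ M := by rw [hM]; exact one_le_pow₀ hH1'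
  have e1 : ∀ i, |P.coeff i| ≤ M := by
    intro i
    refine (hc i).trans ?_
    rw [hM]
    exact pow_le_pow_right₀ hH1' (by omega)
  have e2 : ∀ i, |(taylor (h : ℤ) P).coeff i| ≤ M := by
    intro i
    refine (coeff_taylor_le P g hP _ hc h (by exact_mod_cast hh1) i).trans ?_
    have h1 : ((h : ℤ)) ^ g ≤ (H : ℤ) ^ g := pow_le_pow_left₀ (by positivity) (by exact_mod_cast hhH) g
    have h2 : ((g : ℤ) + 1) * 2 ^ g ≤ H := by
      have : (g + 1) * 2 ^ g ≤ H := by
        have := Nat.zero_le ((2 * g).factorial)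
        omega
      exact_mod_cast this
    calc ((g : ℤ) + 1) * (2 ^ g * (H : ℤ) ^ C * (h : ℤ) ^ g) = (((g : ℤ) + 1) * 2 ^ g) * ((H : ℤ) ^ C * (h : ℤ) ^ g) := by
          ring
      _ ≤ H * ((H : ℤ) ^ C * (H : ℤ) ^ g) := by
          apply mul_le_mul h2 _ (by positivity) (by positivity)
          exact mul_le_mul_of_nonneg_left h1 (by positivity)
      _ = M := by rw [hM]; ring
  unfold RR resultant
  have h3 := Matrix.det_le (A := sylvester P (taylor (h : ℤ) P) P.natDegree P.natDegree)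
    (abv := AbsoluteValue.abs) (x := M) (by
      intro i j
      rw [AbsoluteValue.abs_apply]
      unfold sylvester
      rw [Matrix.of_apply]
      refine Fin.addCases (fun j₁ => ?_) (fun j₁ => ?_) j
      · rw [Fin.addCases_left]
        split_ifs
        · exact e2 _
        · rw [abs_zero]; linarith
      · rw [Fin.addCases_right]
        split_ifs
        · exact e1 _
        · rw [abs_zero]; linarith)
  rw [AbsoluteValue.abs_apply, Fintype.card_fin, nsmul_eq_mul] at h3
  refine h3.trans ?_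
  have h4 : ((P.natDegree + P.natDegree).factorial : ℤ) ≤ H := by
    have h5 : (P.natDegree + P.natDegree).factorial ≤ (2 * g).factorial := Nat.factorial_le (by omega)
    have h6 : (P.natDegree + P.natDegree).factorial ≤ H := by
      have := Nat.zero_le ((g + 1) * 2 ^ g)
      omega
    exact_mod_cast h6
  have h7 : M ^ (P.natDegree + P.natDegree) ≤ M ^ (2 * g) := pow_le_pow_right₀ hM1 (by omega)
  calc ((P.natDegree + P.natDegree).factorial : ℤ) * M ^ (P.natDegree + P.natDegree) ≤ H * M ^ (2 * g) :=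
        mul_le_mul h4 h7 (by positivity) (by positivity)
    _ = (H : ℤ) ^ ((C + g + 1) * (2 * g) + 1) := by
        rw [hM, ← pow_mul, pow_succ]
        ring

end Pool.Agent.Zk41.PY
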